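import Pool.Agent.N879.GD.Stm
import Pool.Agent.H581R3.GPR.Rot

set_option autoImplicit false

/-!
Project GD of helper1 (`MP_112ba8_nt`), part GF: the closed form of `GG`.
-/

namespace Pool.Agent.J4H98.GD

open Complex Filter Topology MeasureTheory Set
open Pool.Agent.N879.GD

noncomputable section

lemma arg_ne_pi {z : ℂ} (hz : 0 < z.re) : z.arg ≠ Real.pi := by
  intro h
  rw [Complex.arg_eq_pi_iff] at h
  linarith [h.1]

/-- the real weight as an exponential -/
lemma wt_eq (b : ℕ) (T u : ℝ) (hT : 0 < T) (hu : 0 < u) :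
    (u / T) ^ b * Real.exp (-(u / T)) / u =
      (T ^ b)⁻¹ * Real.exp (((b : ℝ) - 1) * Real.log u - u / T) := by
  have h1 : Real.exp (((b : ℝ) - 1) * Real.log u - u / T) =
      u ^ b * u⁻¹ * Real.exp (-(u / T)) := by
    rw [show ((b : ℝ) - 1) * Real.log u - u / T = b * Real.log u + (-Real.log u) + (-(u / T)) by ring,
      Real.exp_add, Real.exp_add, Real.exp_nat_mul, Real.exp_log hu, Real.exp_neg (Real.log u),
      Real.exp_log hu]
  rw [h1, div_pow]
  field_simp

lemma int_GF (b : ℕ) (T : ℝ) (hb : 1 ≤ b) (hT : 0 < T) :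
    IntegrableOn (fun u : ℝ => (u / T) ^ b * Real.exp (-(u / T)) / u) (Ioi 0) := by
  have hb1 : (1 : ℝ) ≤ b := by exact_mod_cast hb
  have h := integrableOn_rpow_mul_exp_neg_mul_rpow (p := 1) (s := (b : ℝ) - 1) (b := T⁻¹)
    (by linarith) one_pos (inv_pos.mpr hT)
  have h' : IntegrableOn (fun u : ℝ => (T ^ b)⁻¹ * (u ^ ((b : ℝ) - 1) * Real.exp (-T⁻¹ * u ^ (1 : ℝ))))
      (Ioi 0) := h.const_mul ((T ^ b)⁻¹)
  refine h'.congr_fun (fun u hu => ?_) measurableSet_Ioi
  have hu' : 0 < u := hu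
  simp only
  rw [wt_eq b T u hT hu', Real.rpow_def_of_pos hu', Real.rpow_one, ← Real.exp_add]
  congr 2
  field_simp
  ring

theorem t_GF : S_GF := by
  intro b T x ω hb hT
  refine ⟨int_GF b T hb hT, ?_⟩
  have hb1 : (1 : ℝ) ≤ b := by exact_mod_cast hb
  set a : ℂ := (b : ℂ) - I * ω with ha
  set r : ℂ := (T : ℂ)⁻¹ - I * x with hr
  have hare : 0 < a.re := by
    simp [ha]
    omega
  have hrre : 0 < r.re := by
    rw [hr, ← Complex.ofReal_inv]
    simp [hT]
  have h1 := Pool.Agent.H581R3.GPR.Rot.rot_formula hare hrre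
  have hr0 : r ≠ 0 := by
    rintro h0
    rw [h0] at hrre
    simp at hrre
  have h2 : (1 / r) ^ a = cexp (-a * Complex.log r) := by
    rw [one_div, Complex.cpow_def_of_ne_zero (inv_ne_zero hr0), Complex.log_inv _ (arg_ne_pi hrre)]
    congr 1; ring
  have h3 : GG b T x ω = ∫ u : ℝ in Ioi 0, ((T : ℂ) ^ b)⁻¹ * ((u : ℂ) ^ (a - 1) * cexp (-(r * u))) := by
    unfold GG
    refine setIntegral_congr_fun measurableSet_Ioi (fun u hu => ?_)
    have hu' : 0 < u := hu
    have hu0 : (u : ℂ) ≠ 0 := by exact_mod_cast hu'.ne'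
    rw [wt_eq b T u hT hu', Complex.cpow_def_of_ne_zero hu0, ← Complex.exp_add,
      ← Complex.ofReal_log hu'.le]
    push_cast
    rw [mul_assoc, ← Complex.exp_add]
    congr 2
    rw [ha, hr]
    field_simp
    ring
  rw [h3, integral_const_mul, h1, h2]
  ring

end

end Pool.Agent.J4H98.GD
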