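import Pool.Agent.N879.GD.Stm

set_option autoImplicit false

/-!
Project GD of helper1 (`MP_112ba8_nt`), part GK: the bound of `GG`.
-/

namespace Pool.Agent.J4H98.GD

open Complex Filter Topology MeasureTheory Set
open Pool.Agent.N879.GD

noncomputable section

lemma arctan_ge {z : ℝ} (h0 : 0 ≤ z) (h1 : z ≤ 1) : z / 2 ≤ Real.arctan z := by
  have hpi := Real.pi_gt_three
  have hc : 0 < Real.cos (z / 2) := Real.cos_pos_of_mem_Ioo ⟨by linarith, by linarith⟩
  have hcos : 1 - (z / 2) ^ 2 / 2 ≤ Real.cos (z / 2) := Real.one_sub_sq_div_two_le_cos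
  have hsin : Real.sin (z / 2) ≤ z / 2 := Real.sin_le (by linarith)
  have htan : Real.tan (z / 2) ≤ z := by
    rw [Real.tan_eq_sin_div_cos, div_le_iff₀ hc]
    nlinarith
  rw [← Real.arctan_tan (x := z / 2) (by linarith) (by linarith)]
  exact Real.arctan_strictMono.monotone htan

lemma arg_bound {r : ℂ} (hr : 0 < r.re) (hle : r.re ≤ |r.im|) :
    |r.arg| ≤ Real.pi / 2 - r.re / |r.im| / 2 := by
  have him : 0 < |r.im| := lt_of_lt_of_le hr hle
  have h1 : |r.arg| < Real.pi / 2 := by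
    rw [Complex.abs_arg_lt_pi_div_two_iff]
    left; exact hr
  have h2 : r.arg = Real.arctan (r.im / r.re) := by
    rw [← Complex.tan_arg, Real.arctan_tan (abs_lt.mp h1).1 (abs_lt.mp h1).2]
  have h3 : |r.arg| = Real.arctan (|r.im| / r.re) := by
    rcases le_or_gt 0 r.im with h | h
    · rw [h2, abs_of_nonneg h, abs_of_nonneg]
      rw [Real.arctan_nonneg]
      positivity
    · rw [h2, abs_of_neg h, neg_div, Real.arctan_neg, abs_of_nonpos]
      have : r.im / r.re ≤ 0 := (div_neg_of_neg_of_pos h hr).le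
      have h4 := Real.arctan_strictMono.monotone this
      rwa [Real.arctan_zero] at h4
  have h4 : Real.arctan (|r.im| / r.re) = Real.pi / 2 - Real.arctan (r.re / |r.im|) := by
    rw [← inv_div (r.re) |r.im|]
    exact Real.arctan_inv_of_pos (by positivity)
  have h5 : r.re / |r.im| / 2 ≤ Real.arctan (r.re / |r.im|) :=
    arctan_ge (by positivity) ((div_le_one him).mpr hle)
  rw [h3, h4]
  linarith

theorem t_GK : S_GAM → S_GF → S_GK := by
  intro hG hF b hb
  obtain ⟨C, hC, h⟩ := hG b hb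
  refine ⟨C, hC, fun T x ω hT hx => ?_⟩
  rw [(hF b T x ω hb hT).2]
  set r : ℂ := (T : ℂ)⁻¹ - I * x with hr
  have hre : r.re = T⁻¹ := by
    rw [hr, ← Complex.ofReal_inv]; simp
  have him : r.im = -x := by
    rw [hr, ← Complex.ofReal_inv]; simp
  have hx0 : 0 < |x| := by
    by_contra hn
    have : |x| = 0 := le_antisymm (not_lt.mp hn) (abs_nonneg x)
    rw [this] at hx
    simp at hx
    linarith
  have hrre : 0 < r.re := by rw [hre]; positivity
  have hle : r.re ≤ |r.im| := by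
    rw [hre, him, abs_neg, inv_le_iff_one_le_mul₀ hT]
    exact hx
  have harg := arg_bound hrre hle
  rw [hre, him, abs_neg] at harg
  have hxr : |x| ≤ ‖r‖ := by
    have := Complex.abs_im_le_norm r
    rwa [him, abs_neg] at this
  have hr0 : 0 < ‖r‖ := lt_of_lt_of_le hx0 hxr
  have hexp : ‖cexp (-((b : ℂ) - I * ω) * Complex.log r)‖ ≤
      (|x| ^ b)⁻¹ * Real.exp (Real.pi * |ω| / 2 - |ω| / (2 * (|x| * T))) := by
    rw [Complex.norm_exp]
    have h1 : (-((b : ℂ) - I * ω) * Complex.log r).re = -(b * Real.log ‖r‖) + (-(ω * r.arg)) := by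
      simp [Complex.log_re, Complex.log_im]
      ring
    rw [h1, Real.exp_add, Real.exp_neg, Real.exp_nat_mul, Real.exp_log hr0]
    have h2 : (‖r‖ ^ b)⁻¹ ≤ (|x| ^ b)⁻¹ := by gcongr
    have h3 : -(ω * r.arg) ≤ Real.pi * |ω| / 2 - |ω| / (2 * (|x| * T)) := by
      have h4 : -(ω * r.arg) ≤ |ω| * |r.arg| := by
        rw [← abs_mul]; exact neg_le_abs _
      have h5 : |ω| * |r.arg| ≤ |ω| * (Real.pi / 2 - T⁻¹ / |x| / 2) := by gcongr
      have h6 : |ω| * (Real.pi / 2 - T⁻¹ / |x| / 2) = Real.pi * |ω| / 2 - |ω| / (2 * (|x| * T)) := by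
        field_simp
      linarith
    gcongr
  have hT' : ‖((T : ℂ) ^ b)⁻¹‖ = (T ^ b)⁻¹ := by
    rw [norm_inv, norm_pow, Complex.norm_real, Real.norm_eq_abs, abs_of_pos hT]
  rw [norm_mul, norm_mul, hT']
  calc (T ^ b)⁻¹ * ‖Gamma ((b : ℂ) - I * ω)‖ * ‖cexp (-((b : ℂ) - I * ω) * Complex.log r)‖
      ≤ (T ^ b)⁻¹ * (C * (1 + |ω|) ^ ((b : ℝ) - 1 / 2) * Real.exp (-(Real.pi * |ω| / 2))) *
        ((|x| ^ b)⁻¹ * Real.exp (Real.pi * |ω| / 2 - |ω| / (2 * (|x| * T)))) := by
        gcongr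
        exact h ω
    _ = C * (1 + |ω|) ^ (-(1 / 2 : ℝ)) * ((1 + |ω|) / (|x| * T)) ^ b *
        Real.exp (-(|ω| / (2 * (|x| * T)))) := by
        have h1 : (1 + |ω|) ^ ((b : ℝ) - 1 / 2) = (1 + |ω|) ^ (-(1 / 2 : ℝ)) * (1 + |ω|) ^ b := by
          rw [← Real.rpow_natCast, ← Real.rpow_add (by positivity)]
          congr 1; ring
        have h2 : Real.exp (-(|ω| / (2 * (|x| * T)))) = Real.exp (-(Real.pi * |ω| / 2)) *
            Real.exp (Real.pi * |ω| / 2 - |ω| / (2 * (|x| * T))) := by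
          rw [← Real.exp_add]; congr 1; ring
        rw [h1, h2, div_pow, mul_pow]
        field_simp

end

end Pool.Agent.J4H98.GD
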