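import Pool.Agent.N879.GD.Stm
import Pool.Agent.Helper76.HPlanch

set_option autoImplicit false

/-!
Project GD of helper1 (`MP_112ba8_nt`), part PL: Plancherel's theorem for the Mellin transform.
-/

namespace Pool.Agent.J4H98.GD

open Complex Filter Topology MeasureTheory Set
open scoped ENNReal Convolution FourierTransform
open Pool.Agent.N879.GD

noncomputable section

lemma exp_image : Real.exp '' univ = Ioi (0 : ℝ) := by rw [image_univ, Real.range_exp]

/-- the substitution `u = e^y` in a Lebesgue integral -/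
lemma lint_exp (h : ℝ → ℝ≥0∞) :
    ∫⁻ u in Ioi (0 : ℝ), h u * ENNReal.ofReal u⁻¹ = ∫⁻ y : ℝ, h (Real.exp y) := by
  rw [← exp_image, lintegral_image_eq_lintegral_abs_deriv_mul MeasurableSet.univ
    (fun x _ => (Real.hasDerivAt_exp x).hasDerivWithinAt) Real.exp_injective.injOn,
    setLIntegral_univ]
  refine lintegral_congr fun y => ?_
  rw [abs_of_pos (Real.exp_pos y), mul_comm (h _), ← mul_assoc, ← ENNReal.ofReal_mul (Real.exp_pos y).le,
    mul_inv_cancel₀ (Real.exp_pos y).ne', ENNReal.ofReal_one, one_mul]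

/-- the substitution `u = e^y` -/
lemma int_exp (h : ℝ → ℂ) : ∫ u in Ioi (0 : ℝ), h u / u = ∫ y : ℝ, h (Real.exp y) := by
  rw [← exp_image, integral_image_eq_integral_abs_deriv_smul MeasurableSet.univ
    (fun x _ => (Real.hasDerivAt_exp x).hasDerivWithinAt) Real.exp_injective.injOn,
    setIntegral_univ]
  refine integral_congr_ae (Eventually.of_forall fun y => ?_)
  have : ((Real.exp y : ℝ) : ℂ) ≠ 0 := by exact_mod_cast (Real.exp_pos y).ne'
  simp only
  rw [abs_of_pos (Real.exp_pos y), Complex.real_smul]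
  field_simp

theorem t_PL : S_PL := by
  intro F G a b B ha hab hF hF0 hF2 hG hG0 hB hBd
  have hb : 0 < b := lt_of_lt_of_le ha hab
  set f : ℝ → ℂ := fun y => F (Real.exp (-y)) with hf
  set g : ℝ → ℂ := fun y => G (Real.exp y) with hg
  -- the norms of f
  have e1 : ∫⁻ y, ‖f y‖ₑ ^ 2 = ∫⁻ t in Ioi (0 : ℝ), ‖F t‖ₑ ^ 2 * ENNReal.ofReal t⁻¹ := by
    rw [lint_exp (fun t => ‖F t‖ₑ ^ 2), ← lintegral_neg_eq_self]
    simp [hf]
  have e1fin : ∫⁻ y, ‖f y‖ₑ ^ 2 ≠ ⊤ := by
    rw [e1]
    have h1 : ∫⁻ t in Ioi (0 : ℝ), ‖F t‖ₑ ^ 2 * ENNReal.ofReal t⁻¹ ≤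
        ∫⁻ t, ‖F t‖ₑ ^ 2 * ENNReal.ofReal a⁻¹ := by
      refine (setLIntegral_le_lintegral _ _).trans (lintegral_mono fun t => ?_)
      by_cases ht : t ∈ Icc a b
      · have h2 : t⁻¹ ≤ a⁻¹ := by
          have := ht.1
          gcongr
        gcongr
      · simp [hF0 t ht]
    refine ne_top_of_le_ne_top ?_ h1
    rw [lintegral_mul_const' _ _ ENNReal.ofReal_ne_top]
    exact ENNReal.mul_ne_top hF2 ENNReal.ofReal_ne_top
  have hfm : Measurable f := hF.comp (Real.measurable_exp.comp measurable_neg)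
  have hfL2 : MemLp f 2 := by
    refine ⟨hfm.aestronglyMeasurable, ?_⟩
    rw [eLpNorm_eq_lintegral_rpow_enorm_toReal (by norm_num) (by norm_num)]
    refine ENNReal.rpow_lt_top_of_nonneg (by norm_num) ?_
    simpa using e1fin
  have hf0 : ∀ y, y ∉ Icc (-Real.log b) (-Real.log a) → f y = 0 := by
    intro y hy
    refine hF0 _ fun h => hy ⟨?_, ?_⟩
    · have := Real.log_le_log (Real.exp_pos _) h.2
      rw [Real.log_exp] at this
      linarith
    · have := Real.log_le_log ha h.1
      rw [Real.log_exp] at this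
      linarith
  have hfcs : HasCompactSupport f := HasCompactSupport.intro isCompact_Icc hf0
  have hfI : Integrable f := by
    have h1 : IntegrableOn f (Icc (-Real.log b) (-Real.log a)) := by
      have h2 : MemLp f 2 (volume.restrict (Icc (-Real.log b) (-Real.log a))) := hfL2.restrict _
      exact h2.integrable (by norm_num)
    exact (integrableOn_iff_integrable_of_support_subset
      (fun y hy => by by_contra h; exact hy (hf0 y h))).mp h1
  -- g
  have hgc : Continuous g := hG.comp Real.continuous_exp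
  have hg0 : ∀ y, y ∉ Icc (Real.log a) (Real.log b) → g y = 0 := by
    intro y hy
    refine hG0 _ fun h => hy ⟨?_, ?_⟩
    · have := Real.log_le_log ha h.1
      rwa [Real.log_exp] at this
    · have := Real.log_le_log (Real.exp_pos _) h.2
      rwa [Real.log_exp] at this
  have hgcs : HasCompactSupport g := HasCompactSupport.intro isCompact_Icc hg0
  have hgI : Integrable g := hgc.integrable_of_hasCompactSupport hgcs
  -- the convolution
  set k : ℝ → ℂ := f ⋆[ContinuousLinearMap.mul ℂ ℂ, volume] g with hk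
  have hkc : Continuous k :=
    hgcs.continuous_convolution_right _ hfI.locallyIntegrable hgc
  have hkcs : HasCompactSupport k := hfcs.convolution _ hgcs
  have hkI : Integrable k := hkc.integrable_of_hasCompactSupport hkcs
  have hkL2 : MemLp k 2 := hkc.memLp_of_hasCompactSupport hkcs
  have hkeq : ∀ s : ℝ, k s = ∫ t in Ioi (0 : ℝ), F t * G (Real.exp s * t) / t := by
    intro s
    rw [int_exp (fun t => F t * G (Real.exp s * t)), ← integral_neg_eq_self]
    rw [hk, convolution_def]
    refine integral_congr_ae (Eventually.of_forall fun y => ?_)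
    simp only [hf, hg, ContinuousLinearMap.mul_apply']
    rw [← Real.exp_add, sub_eq_add_neg]
  have hgF : ∀ ξ : ℝ, ‖𝓕 g ξ‖ ≤ B := by
    intro ξ
    have h1 : 𝓕 g ξ = ∫ u in Ioi (0 : ℝ), G u / u *
        cexp (-(I * ((2 * Real.pi * ξ * Real.log u : ℝ) : ℂ))) := by
      have h2 := int_exp (fun u => G u * cexp (-(I * ((2 * Real.pi * ξ * Real.log u : ℝ) : ℂ))))
      simp only [Real.log_exp] at h2
      rw [Real.fourier_real_eq_integral_exp_smul]
      have h3 : ∫ u in Ioi (0 : ℝ), G u / u * cexp (-(I * ((2 * Real.pi * ξ * Real.log u : ℝ) : ℂ))) =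
          ∫ u in Ioi (0 : ℝ), G u * cexp (-(I * ((2 * Real.pi * ξ * Real.log u : ℝ) : ℂ))) / u := by
        refine integral_congr_ae (Eventually.of_forall fun u => ?_)
        simp only
        ring
      rw [h3, h2]
      refine integral_congr_ae (Eventually.of_forall fun y => ?_)
      simp only [hg, smul_eq_mul]
      rw [mul_comm]
      congr 2
      push_cast
      ring
    rw [h1]
    exact hBd (2 * Real.pi * ξ)
  have hP1 := Pool.Agent.Helper76.NormalHP.plancherel_lintegral k hkI hkL2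
  have hP2 := Pool.Agent.Helper76.NormalHP.plancherel_lintegral f hfI hfL2
  have h5 : ∫⁻ l in Ioi (0 : ℝ), ‖∫ t in Ioi (0 : ℝ), F t * G (l * t) / t‖ₑ ^ 2 * ENNReal.ofReal l⁻¹ =
      ∫⁻ s, ‖k s‖ₑ ^ 2 := by
    rw [lint_exp (fun l => ‖∫ t in Ioi (0 : ℝ), F t * G (l * t) / t‖ₑ ^ 2)]
    refine lintegral_congr fun s => ?_
    rw [hkeq s]
  rw [h5, ← e1, ← hP1, ← hP2, ← lintegral_const_mul' _ _ ENNReal.ofReal_ne_top]
  refine lintegral_mono fun ξ => ?_
  have h6 : 𝓕 k ξ = 𝓕 f ξ * 𝓕 g ξ := Real.fourier_mul_convolution_eq hfI hgI ξ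
  rw [h6, enorm_mul, mul_pow, mul_comm]
  gcongr
  rw [← ofReal_norm, ← ENNReal.ofReal_pow (norm_nonneg _)]
  exact ENNReal.ofReal_le_ofReal (by gcongr; exact hgF ξ)

end

end Pool.Agent.J4H98.GD
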