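import Pool.Agent.N879.GD.Stm

set_option autoImplicit false

/-!
Project GD of helper1 (`MP_112ba8_nt`), part GAM: Stirling's upper bound on vertical lines.
-/

namespace Pool.Agent.J4H98.GD

open Complex Filter Topology MeasureTheory Set
open Pool.Agent.N879.GD

noncomputable section

/-- `x / sinh x ≤ (1 + 2x) e^(-x)` -/
theorem x_le (x : ℝ) : x ≤ (1 + 2 * x) * Real.exp (-x) * Real.sinh x := by
  rw [Real.sinh_eq]
  have h1 : 2 * x + 1 ≤ Real.exp (2 * x) := Real.add_one_le_exp _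
  have h2 : Real.exp (-x) * Real.exp x = 1 := by rw [← Real.exp_add]; simp
  have h3 : Real.exp (-x) * Real.exp (-x) * Real.exp (2 * x) = 1 := by
    rw [← Real.exp_add, ← Real.exp_add]; ring_nf; simp
  have h4 : 0 < Real.exp (-x) * Real.exp (-x) := by positivity
  have h5 : (1 + 2 * x) * (Real.exp (-x) * Real.exp (-x)) ≤ 1 := by
    nlinarith [mul_le_mul_of_nonneg_left h1 h4.le]
  have h6 : (1 + 2 * x) * Real.exp (-x) * ((Real.exp x - Real.exp (-x)) / 2) =
      ((1 + 2 * x) * (Real.exp (-x) * Real.exp x) -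
        (1 + 2 * x) * (Real.exp (-x) * Real.exp (-x))) / 2 := by ring
  rw [h6, h2]
  linarith

/-- the square of the modulus of `Γ(1 - iω)` -/
theorem gam1_sq (ω : ℝ) (hω : ω ≠ 0) :
    ‖Gamma (1 - I * ω)‖ ^ 2 * Real.sinh (Real.pi * |ω|) = Real.pi * |ω| := by
  have hI : I * (ω : ℂ) ≠ 0 := mul_ne_zero I_ne_zero (by exact_mod_cast hω)
  have h1 := Complex.Gamma_mul_Gamma_one_sub (I * ω)
  have h2 : Gamma (1 + I * ω) = I * ω * Gamma (I * ω) := by
    rw [add_comm]; exact Complex.Gamma_add_one _ hI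
  have h3 : Gamma (1 + I * ω) = (starRingEnd ℂ) (Gamma (1 - I * ω)) := by
    rw [← Complex.Gamma_conj]
    congr 1
    simp [Complex.conj_ofReal]
  have h4 : (‖Gamma (1 - I * ω)‖ : ℂ) ^ 2 = I * ω * (Real.pi / Complex.sin (Real.pi * (I * ω))) := by
    rw [← h1, ← Complex.conj_mul', ← h3, h2]
    ring
  have h5 : Complex.sin (Real.pi * (I * ω)) = Complex.sinh (Real.pi * ω) * I := by
    rw [← Complex.sin_mul_I]
    congr 1; ring
  have h6 : Complex.sinh ((Real.pi : ℂ) * ω) ≠ 0 := by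
    rw [← Complex.ofReal_mul, ← Complex.ofReal_sinh]
    have : Real.sinh (Real.pi * ω) ≠ 0 := by
      rw [Ne, Real.sinh_eq_zero]
      exact mul_ne_zero Real.pi_ne_zero hω
    exact_mod_cast this
  have h7 : (‖Gamma (1 - I * ω)‖ : ℂ) ^ 2 * Complex.sinh ((Real.pi : ℂ) * ω) = Real.pi * ω := by
    rw [h4, h5]
    generalize Complex.sinh ((Real.pi : ℂ) * ω) = z at h6 ⊢
    field_simp
  have h8 : ‖Gamma (1 - I * ω)‖ ^ 2 * Real.sinh (Real.pi * ω) = Real.pi * ω := by
    rw [← Complex.ofReal_mul, ← Complex.ofReal_sinh] at h7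
    exact_mod_cast h7
  rcases le_or_gt 0 ω with h | h
  · rw [abs_of_nonneg h]; exact h8
  · rw [abs_of_neg h, mul_neg, Real.sinh_neg]
    linarith

theorem gam1 (ω : ℝ) : ‖Gamma (1 - I * ω)‖ ^ 2 ≤
    2 * Real.pi * (1 + |ω|) * Real.exp (-(Real.pi * |ω|)) := by
  have hpi := Real.pi_gt_three
  by_cases hω : ω = 0
  · subst hω
    simp only [ofReal_zero, mul_zero, sub_zero, Complex.Gamma_one, norm_one, abs_zero, neg_zero,
      Real.exp_zero]
    nlinarith
  · have ha : 0 < |ω| := abs_pos.mpr hω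
    have h1 := gam1_sq ω hω
    have h2 := x_le (Real.pi * |ω|)
    have hs : 0 < Real.sinh (Real.pi * |ω|) := Real.sinh_pos_iff.mpr (by positivity)
    have h3 : ‖Gamma (1 - I * ω)‖ ^ 2 ≤
        (1 + 2 * (Real.pi * |ω|)) * Real.exp (-(Real.pi * |ω|)) := by
      refine le_of_mul_le_mul_right ?_ hs
      rw [h1]; exact h2
    refine h3.trans ?_
    gcongr
    nlinarith

theorem t_GAM : S_GAM := by
  intro b hb
  induction b, hb using Nat.le_induction with
  | base =>
    refine ⟨√(2 * Real.pi), Real.sqrt_pos.mpr (by positivity), fun ω => ?_⟩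
    have h := gam1 ω
    have h1 : ‖Gamma (1 - I * ω)‖ ≤ √(2 * Real.pi * (1 + |ω|) * Real.exp (-(Real.pi * |ω|))) := by
      rw [← Real.sqrt_sq (norm_nonneg (Gamma (1 - I * ω)))]
      exact Real.sqrt_le_sqrt h
    have h2 : √(2 * Real.pi * (1 + |ω|) * Real.exp (-(Real.pi * |ω|))) =
        √(2 * Real.pi) * (1 + |ω|) ^ (((1 : ℕ) : ℝ) - 1 / 2) * Real.exp (-(Real.pi * |ω| / 2)) := by
      rw [Real.sqrt_mul (by positivity), Real.sqrt_mul (by positivity)]
      congr 1
      · congr 1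
        rw [Real.sqrt_eq_rpow]
        congr 1; norm_num
      · rw [← Real.exp_half]
        congr 1; ring
    rw [← h2]
    simpa using h1
  | succ b hb ih =>
    obtain ⟨C, hC, h⟩ := ih
    have hb0 : (0 : ℝ) < b := by exact_mod_cast hb
    refine ⟨b * C, by positivity, fun ω => ?_⟩
    have hne : (b : ℂ) - I * ω ≠ 0 := by
      intro h0
      have := congrArg Complex.re h0
      simp at this
      omega
    have h1 : Gamma (((b + 1 : ℕ) : ℂ) - I * ω) = ((b : ℂ) - I * ω) * Gamma ((b : ℂ) - I * ω) := by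
      rw [← Complex.Gamma_add_one _ hne]
      congr 1
      push_cast; ring
    have h2 : ‖(b : ℂ) - I * ω‖ ≤ b * (1 + |ω|) := by
      refine (norm_sub_le _ _).trans ?_
      rw [norm_mul, Complex.norm_I, Complex.norm_real, Complex.norm_natCast, one_mul,
        Real.norm_eq_abs]
      have : (1 : ℝ) ≤ b := by exact_mod_cast hb
      nlinarith [abs_nonneg ω]
    rw [h1, norm_mul]
    calc ‖(b : ℂ) - I * ω‖ * ‖Gamma ((b : ℂ) - I * ω)‖
        ≤ (b * (1 + |ω|)) * (C * (1 + |ω|) ^ ((b : ℝ) - 1 / 2) *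
            Real.exp (-(Real.pi * |ω| / 2))) := by
          gcongr
          exact h ω
      _ = b * C * (1 + |ω|) ^ (((b + 1 : ℕ) : ℝ) - 1 / 2) * Real.exp (-(Real.pi * |ω| / 2)) := by
          have : (1 + |ω|) ^ (((b + 1 : ℕ) : ℝ) - 1 / 2) = (1 + |ω|) ^ ((b : ℝ) - 1 / 2) * (1 + |ω|) := by
            rw [← Real.rpow_add_one (by positivity)]
            congr 1; push_cast; ring
          rw [this]; ring

end

end Pool.Agent.J4H98.GD
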